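import Mathlib
import Pool.Agent.Helper34.ThomGame

/-!
The degree-imbalance inequality of Thomasse for quasi-transitive oriented graphs, in particular for
all tournaments, with an explicit error term for all oriented graphs.
-/

set_option autoImplicit false

open Classical

namespace Pool.Agent.Results.MP_8665f8_co.ImbalanceBound

open Finset

variable {V : Type}

/-- The ordered pairs `(x, y)` of distinct nonadjacent vertices joined by a directed path of
length two from `x` to `y`. -/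
noncomputable def farPairs [Fintype V] (G : Digraph V) : Finset (V × V) :=
  Finset.univ.filter (fun p : V × V => p.1 ≠ p.2 ∧ ¬ G.Adj p.1 p.2 ∧ ¬ G.Adj p.2 p.1 ∧
    ∃ w, G.Adj p.1 w ∧ G.Adj w p.2)

/-- The arcs `(u, v)` that lie in no directed triangle and for which some out-neighbour of `v` is
not an out-neighbour of `u`, or some in-neighbour of `u` is not an in-neighbour of `v`. -/
noncomputable def looseArcs [Fintype V] (G : Digraph V) : Finset (V × V) :=
  Finset.univ.filter (fun p : V × V => G.Adj p.1 p.2 ∧ (¬ ∃ w, G.Adj p.2 w ∧ G.Adj w p.1) ∧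
    ∃ w, (G.Adj p.2 w ∧ ¬ G.Adj p.1 w) ∨ (G.Adj w p.1 ∧ ¬ G.Adj w p.2))

/-- The skew-symmetric matrix of a digraph. -/
noncomputable def mat (G : Digraph V) (x y : V) : ℤ :=
  (if G.Adj x y then 1 else 0) - (if G.Adj y x then 1 else 0)

/-- The covering relation: arcs along which the neighbourhoods are nested. -/
def cov (G : Digraph V) (x y : V) : Prop :=
  G.Adj x y ∧ (∀ z, G.Adj y z → G.Adj x z) ∧ (∀ z, G.Adj z x → G.Adj z y)

theorem mat_skew (G : Digraph V) (x y : V) : mat G x y = - mat G y x := by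
  unfold mat
  ring

theorem mat_mono (G : Digraph V) (x y z : V) (h : cov G x y) : mat G y z ≤ mat G x z := by
  unfold mat
  obtain ⟨-, h1, h2⟩ := h
  have h3 : (if G.Adj y z then 1 else 0 : ℤ) ≤ (if G.Adj x z then 1 else 0) := by
    by_cases h : G.Adj y z
    · rw [if_pos h, if_pos (h1 z h)]
    · rw [if_neg h]
      split_ifs <;> norm_num
  have h4 : (if G.Adj z x then 1 else 0 : ℤ) ≤ (if G.Adj z y then 1 else 0) := by
    by_cases h : G.Adj z x
    · rw [if_pos h, if_pos (h2 z h)]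
    · rw [if_neg h]
      split_ifs <;> norm_num
  linarith

theorem mat_one (G : Digraph V) (hanti : ∀ u v, G.Adj u v → ¬ G.Adj v u) (x y : V)
    (h : cov G x y) : 1 ≤ mat G x y := by
  unfold mat
  rw [if_pos h.1, if_neg (hanti _ _ h.1)]
  norm_num

theorem cov_trans (G : Digraph V) (x y z : V) (h : cov G x y) (h' : cov G y z) : cov G x z :=
  ⟨h.2.1 z h'.1, fun w hw => h.2.1 w (h'.2.1 w hw), fun w hw => h'.2.2 w (h.2.2 w hw)⟩

/-- The covering relation is at most the total imbalance. -/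
theorem cov_le [Fintype V] (G : Digraph V) (hanti : ∀ u v, G.Adj u v → ¬ G.Adj v u) :
    (∑ x : V, ∑ y : V, (if cov G x y then 1 else 0 : ℤ)) +
      ((Finset.univ.filter (fun v =>
          (Finset.univ.filter (fun w => G.Adj w v)).card
            < (Finset.univ.filter (fun w => G.Adj v w)).card)).card : ℤ) ≤
      ∑ v : V, |((Finset.univ.filter (fun w => G.Adj v w)).card : ℤ)
                  - ((Finset.univ.filter (fun w => G.Adj w v)).card : ℤ)| := by
  have h := Pool.Agent.Helper34.Thom.pairs_le (R := cov G) (M := mat G) (mat_skew G) (mat_mono G)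
    (mat_one G hanti) (cov_trans G) (fun x => ∑ z, mat G x z) Finset.univ
    (fun x _ y _ _ => by rw [Finset.sum_sub_distrib])
  have hb : ∀ x, ∑ z, mat G x z = ((Finset.univ.filter (fun w => G.Adj x w)).card : ℤ)
      - ((Finset.univ.filter (fun w => G.Adj w x)).card : ℤ) := by
    intro x
    unfold mat
    rw [Finset.sum_sub_distrib, Finset.card_filter, Finset.card_filter]
    push_cast
    rfl
  simp only [hb, Finset.sum_sub_distrib] at h
  have hS : ((Finset.univ.filter (fun v =>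
          (Finset.univ.filter (fun w => G.Adj w v)).card
            < (Finset.univ.filter (fun w => G.Adj v w)).card)).card : ℤ) =
      ∑ x : V, (if 0 < ((Finset.univ.filter (fun w => G.Adj x w)).card : ℤ)
      - ((Finset.univ.filter (fun w => G.Adj w x)).card : ℤ) then 1 else 0 : ℤ) := by
    rw [Finset.card_filter]
    push_cast
    refine Finset.sum_congr rfl fun x _ => ?_
    congr 1
    rw [sub_pos, Nat.cast_lt]
  rw [hS]
  linarith

theorem card_pairs [Fintype V] (P : V × V → Prop) [DecidablePred P] (Q : V → V → Prop)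
    [∀ x y, Decidable (Q x y)] (h : ∀ x y, P (x, y) ↔ Q x y) :
    ((Finset.univ.filter P).card : ℤ) = ∑ x : V, ∑ y : V, (if Q x y then 1 else 0 : ℤ) := by
  rw [Finset.card_filter, Fintype.sum_prod_type]
  push_cast
  refine Finset.sum_congr rfl fun x _ => Finset.sum_congr rfl fun y _ => ?_
  exact if_congr (h x y) rfl rfl

/-- **The degree-imbalance inequality up to an explicit error term.** -/
theorem result (V : Type) [Fintype V] (G : Digraph V) (hirr : ∀ u, ¬ G.Adj u u)
    (hanti : ∀ u v, G.Adj u v → ¬ G.Adj v u) :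
    2 * ((Finset.univ.filter (fun p : V × V => G.Adj p.1 p.2)).card : ℤ)
        + ((Finset.univ.filter (fun v =>
              (Finset.univ.filter (fun w => G.Adj w v)).card
                < (Finset.univ.filter (fun w => G.Adj v w)).card)).card : ℤ)
        + ((farPairs G).card : ℤ)
      ≤ (∑ v : V, |((Finset.univ.filter (fun w => G.Adj v w)).card : ℤ)
                  - ((Finset.univ.filter (fun w => G.Adj w v)).card : ℤ)|)
        + ((Finset.univ.filter (fun p : V × V =>
              p.1 ≠ p.2 ∧ (G.Adj p.1 p.2 ∨ ∃ w, G.Adj p.1 w ∧ G.Adj w p.2))).card : ℤ)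
        + ((looseArcs G).card : ℤ) := by
  have hmain := cov_le G hanti
  -- the counting identity
  have hkey : ∀ x y : V,
      (if x ≠ y ∧ (G.Adj x y ∨ ∃ w, G.Adj x w ∧ G.Adj w y) then 1 else 0 : ℤ)
        + (if G.Adj y x ∧ (¬ ∃ w, G.Adj x w ∧ G.Adj w y) ∧
            ∃ w, (G.Adj x w ∧ ¬ G.Adj y w) ∨ (G.Adj w y ∧ ¬ G.Adj w x) then 1 else 0)
        + (if cov G y x then 1 else 0) =
      (if G.Adj x y then 1 else 0) + (if G.Adj y x then 1 else 0) +
        (if x ≠ y ∧ ¬ G.Adj x y ∧ ¬ G.Adj y x ∧ ∃ w, G.Adj x w ∧ G.Adj w y then 1 else 0) := by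
    intro x y
    by_cases hxy : x = y
    · subst hxy
      have hc : ¬ cov G x x := fun h => hirr _ h.1
      simp [hirr, hc]
    by_cases h1 : G.Adj x y
    · have h2 := hanti _ _ h1
      have hc : ¬ cov G y x := fun h => h2 h.1
      simp [hxy, h1, h2, hc]
    by_cases h2 : G.Adj y x
    · by_cases hp : ∃ w, G.Adj x w ∧ G.Adj w y
      · have hc : ¬ cov G y x := by
          rintro ⟨-, h3, -⟩
          obtain ⟨w, h4, h5⟩ := hp
          exact hanti _ _ (h3 w h4) h5
        simp [hxy, h1, h2, hc, hp]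
      · by_cases hc : cov G y x
        · have hq : ¬ ∃ w, (G.Adj x w ∧ ¬ G.Adj y w) ∨ (G.Adj w y ∧ ¬ G.Adj w x) := by
            rintro ⟨w, h | h⟩
            · exact h.2 (hc.2.1 w h.1)
            · exact h.2 (hc.2.2 w h.1)
          simp [hxy, h1, h2, hc, hp, hq]
        · have hq : ∃ w, (G.Adj x w ∧ ¬ G.Adj y w) ∨ (G.Adj w y ∧ ¬ G.Adj w x) := by
            by_contra hno
            push Not at hno
            apply hc
            refine ⟨h2, fun z hz => ?_, fun z hz => ?_⟩
            · exact (hno z).1 hz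
            · exact (hno z).2 hz
          simp [hxy, h1, h2, hc, hp, hq]
    · have hc : ¬ cov G y x := fun h => h2 h.1
      by_cases hp : ∃ w, G.Adj x w ∧ G.Adj w y
      · simp [hxy, h1, h2, hc, hp]
      · simp [hxy, h1, h2, hc, hp]
  have hsum : (∑ x : V, ∑ y : V,
      (if x ≠ y ∧ (G.Adj x y ∨ ∃ w, G.Adj x w ∧ G.Adj w y) then 1 else 0 : ℤ))
        + (∑ x : V, ∑ y : V, (if G.Adj y x ∧ (¬ ∃ w, G.Adj x w ∧ G.Adj w y) ∧
            ∃ w, (G.Adj x w ∧ ¬ G.Adj y w) ∨ (G.Adj w y ∧ ¬ G.Adj w x) then 1 else 0 : ℤ))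
        + (∑ x : V, ∑ y : V, (if cov G y x then 1 else 0 : ℤ)) =
      (∑ x : V, ∑ y : V, (if G.Adj x y then 1 else 0 : ℤ)) +
        (∑ x : V, ∑ y : V, (if G.Adj y x then 1 else 0 : ℤ)) +
        (∑ x : V, ∑ y : V, (if x ≠ y ∧ ¬ G.Adj x y ∧ ¬ G.Adj y x ∧
          ∃ w, G.Adj x w ∧ G.Adj w y then 1 else 0 : ℤ)) := by
    simp only [← Finset.sum_add_distrib]
    exact Finset.sum_congr rfl fun x _ => Finset.sum_congr rfl fun y _ => hkey x y
  have h1 : ∑ x : V, ∑ y : V, (if cov G y x then 1 else 0 : ℤ) =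
      ∑ x : V, ∑ y : V, (if cov G x y then 1 else 0 : ℤ) := Finset.sum_comm
  have h2 : ∑ x : V, ∑ y : V, (if G.Adj y x then 1 else 0 : ℤ) =
      ∑ x : V, ∑ y : V, (if G.Adj x y then 1 else 0 : ℤ) := Finset.sum_comm
  have h3 : ((looseArcs G).card : ℤ) =
      ∑ x : V, ∑ y : V, (if G.Adj y x ∧ (¬ ∃ w, G.Adj x w ∧ G.Adj w y) ∧
            ∃ w, (G.Adj x w ∧ ¬ G.Adj y w) ∨ (G.Adj w y ∧ ¬ G.Adj w x) then 1 else 0 : ℤ) := by
    rw [Finset.sum_comm]
    exact card_pairs _ _ (fun _ _ => Iff.rfl)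
  have h4 : ((farPairs G).card : ℤ) =
      ∑ x : V, ∑ y : V, (if x ≠ y ∧ ¬ G.Adj x y ∧ ¬ G.Adj y x ∧
          ∃ w, G.Adj x w ∧ G.Adj w y then 1 else 0 : ℤ) :=
    card_pairs _ _ (fun _ _ => Iff.rfl)
  have h5 : ((Finset.univ.filter (fun p : V × V => G.Adj p.1 p.2)).card : ℤ) =
      ∑ x : V, ∑ y : V, (if G.Adj x y then 1 else 0 : ℤ) :=
    card_pairs _ _ (fun _ _ => Iff.rfl)
  have h6 : ((Finset.univ.filter (fun p : V × V =>
      p.1 ≠ p.2 ∧ (G.Adj p.1 p.2 ∨ ∃ w, G.Adj p.1 w ∧ G.Adj w p.2))).card : ℤ) =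
      ∑ x : V, ∑ y : V,
      (if x ≠ y ∧ (G.Adj x y ∨ ∃ w, G.Adj x w ∧ G.Adj w y) then 1 else 0 : ℤ) :=
    card_pairs _ _ (fun _ _ => Iff.rfl)
  rw [h1, h2, ← h3, ← h4, ← h5, ← h6] at hsum
  linarith

end Pool.Agent.Results.MP_8665f8_co.ImbalanceBound
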