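import Mathlib
import Pool.Agent.Helper3.Thom.Shift

/-!
The degree-imbalance inequality of Thomasse for the digraphs obtained from a round oriented graph
by substituting tournaments (more generally: quasi-transitive oriented graphs, or oriented graphs
in which every arc lies in a directed triangle) for its vertices.
-/

set_option autoImplicit false

open Classical

namespace Pool.Agent.Results.MP_8665f8_co.RoundCompositions

open Finset Pool.Agent.Helper3.Thom

/-- `G` is a composition `R[H_1, …, H_r]`: the vertices of the round oriented graph `R` are the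
elements of `ZMod r`, the out-neighbours of `i` are `i + 1, …, i + F i` and the in-neighbours of
`j` are `j - 1, …, j - B j`; the cluster `H_i` is the set of the vertices `x` with `c x = i`,
it is nonempty; every arc `(x, y)` inside a cluster lies in a directed triangle, or in this cluster
all out-neighbours of `y` are out-neighbours of `x` and all in-neighbours of `x` are in-neighbours
of `y`. -/
structure RoundComposition {V : Type} (G : Digraph V) (r : ℕ) (c : V → ZMod r)
    (F B : ZMod r → ℕ) : Prop where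
  nonempty : Function.Surjective c
  lt : ∀ i, F i < r ∧ B i < r
  out : ∀ x y, c x ≠ c y → (G.Adj x y ↔ ∃ k : ℕ, 1 ≤ k ∧ k ≤ F (c x) ∧ c y = c x + k)
  inn : ∀ x y, c x ≠ c y → (G.Adj x y ↔ ∃ k : ℕ, 1 ≤ k ∧ k ≤ B (c y) ∧ c x = c y - k)
  arcs : ∀ x y, c x = c y → G.Adj x y → (∃ z, G.Adj y z ∧ G.Adj z x) ∨
    ((∀ z, c z = c x → G.Adj y z → G.Adj x z) ∧ (∀ z, c z = c x → G.Adj z x → G.Adj z y))

section

variable {V : Type} [Fintype V] {r : ℕ} [NeZero r]

theorem fiber_sum (c : V → ZMod r) (i : ZMod r) (g : V → ℤ) :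
    ∑ y : {y // c y = i}, g y = ∑ y, if c y = i then g y else 0 := by
  rw [← Finset.sum_filter]
  exact (Finset.sum_subtype _ (by simp) _).symm

theorem fiber_double (c : V → ZMod r) (g : V → V → ℤ) :
    ∑ i : ZMod r, ∑ x : {x // c x = i}, ∑ y : {y // c y = i}, g x y
      = ∑ x, ∑ y, if c y = c x then g x y else 0 := by
  rw [← Fintype.sum_fiberwise c (fun x => ∑ y, if c y = c x then g x y else 0)]
  refine Finset.sum_congr rfl fun i _ => Finset.sum_congr rfl fun x _ => ?_
  rw [fiber_sum, x.2]

/-- size of the clusters -/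
noncomputable def wt (c : V → ZMod r) (i : ZMod r) : ℕ := Fintype.card {x // c x = i}

theorem wt_mul (c : V → ZMod r) (g : ZMod r → ℤ) :
    ∑ i, (wt c i : ℤ) * g i = ∑ x, g (c x) := by
  rw [← Fintype.sum_fiberwise c (fun x => g (c x))]
  refine Finset.sum_congr rfl fun i _ => ?_
  have h1 : ∀ x : {x // c x = i}, g (c x) = g i := fun x => by rw [x.2]
  simp only [h1, Finset.sum_const, Finset.card_univ, nsmul_eq_mul]
  rfl

theorem pw_eq (c : V → ZMod r) (F : ZMod r → ℕ) (i : ZMod r) :
    (pw F (wt c) i : ℤ) = ∑ y, if rel F i (c y) then 1 else 0 := by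
  rw [← wt_mul c (fun j => if rel F i j then 1 else 0)]
  unfold pw
  push_cast
  refine Finset.sum_congr rfl fun j _ => ?_
  split_ifs <;> simp

theorem qw_eq (c : V → ZMod r) (F : ZMod r → ℕ) (j : ZMod r) :
    (qw F (wt c) j : ℤ) = ∑ x, if rel F (c x) j then 1 else 0 := by
  rw [← wt_mul c (fun i => if rel F i j then 1 else 0)]
  unfold qw
  push_cast
  refine Finset.sum_congr rfl fun i _ => ?_
  split_ifs <;> simp

variable (G : Digraph V)

/-- the adjacency matrix -/
noncomputable def a (x y : V) : ℤ := if G.Adj x y then 1 else 0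

theorem outDeg_eq (x : V) : ((Finset.univ.filter (fun y => G.Adj x y)).card : ℤ) = ∑ y, a G x y := by
  unfold a
  rw [Finset.sum_boole]

theorem inDeg_eq (x : V) : ((Finset.univ.filter (fun y => G.Adj y x)).card : ℤ) = ∑ y, a G y x := by
  unfold a
  rw [Finset.sum_boole]

/-- `x` dominates `y` and its neighbourhoods dominate those of `y` in the cluster -/
def Cov (c : V → ZMod r) (x y : V) : Prop :=
  G.Adj x y ∧ (∀ z, c z = c x → G.Adj y z → G.Adj x z) ∧ (∀ z, c z = c x → G.Adj z x → G.Adj z y)

/-- Indicator of the pairs at distance exactly two. -/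
noncomputable def two (u w : V) : ℤ :=
  if u ≠ w ∧ ¬ G.Adj u w ∧ ∃ v, G.Adj u v ∧ G.Adj v w then 1 else 0

theorem two_nonneg (u w : V) : 0 ≤ two G u w := by
  unfold two
  split_ifs <;> norm_num

theorem card_pairs (P : V → V → Prop) :
    ((Finset.univ.filter (fun p : V × V => P p.1 p.2)).card : ℤ)
      = ∑ u, ∑ v, (if P u v then 1 else 0) := by
  rw [← Finset.sum_boole, ← Finset.univ_product_univ, Finset.sum_product]

variable {G} {c : V → ZMod r} {F B : ZMod r → ℕ}

theorem rel_ne (h : RoundComposition G r c F B) {i j : ZMod r} (hr : rel F i j) : i ≠ j := by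
  rintro rfl
  rw [rel_iff F (fun i => (h.lt i).1)] at hr
  simp at hr

theorem adj_iff (h : RoundComposition G r c F B) {x y : V} (hxy : c x ≠ c y) :
    G.Adj x y ↔ rel F (c x) (c y) := h.out x y hxy

theorem hFB (h : RoundComposition G r c F B) (i j : ZMod r) :
    rel F i j ↔ ∃ k : ℕ, 1 ≤ k ∧ k ≤ B j ∧ i = j - k := by
  by_cases hij : i = j
  · subst hij
    constructor
    · intro hr
      exact absurd rfl (rel_ne h hr)
    · rintro ⟨k, h1, h2, h3⟩
      exfalso
      have h4 : (k : ZMod r) = 0 := by
        have : i - (k : ZMod r) = i := h3.symm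
        simpa using this
      rw [ZMod.natCast_eq_zero_iff] at h4
      have h5 := Nat.le_of_dvd (by omega) h4
      have h6 := (h.lt i).2
      omega
  · obtain ⟨x, rfl⟩ := h.nonempty i
    obtain ⟨y, rfl⟩ := h.nonempty j
    rw [← adj_iff h hij]
    exact h.inn x y hij

/-- Two steps forward. -/
theorem step (h : RoundComposition G r c F B) (hanti : ∀ u v, G.Adj u v → ¬ G.Adj v u)
    (i j : ZMod r) (hr : rel F (i + (F i : ZMod r)) j) :
    rel F i (i + (F i : ZMod r)) ∧ i ≠ j ∧ ¬ rel F i j := by
  have hF : ∀ i, F i < r := fun i => (h.lt i).1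
  have h0 : 1 ≤ F i := by
    by_contra hcon
    have h1 : F i = 0 := by omega
    rw [h1] at hr
    have h2 : rel F i j := by simpa using hr
    obtain ⟨k, hk1, hk2, _⟩ := h2
    omega
  have h1 : rel F i (i + (F i : ZMod r)) := ⟨F i, h0, le_rfl, rfl⟩
  obtain ⟨k, hk1, hk2, hk3⟩ := hr
  have h2 : F i + k < r := by
    by_contra hcon
    push Not at hcon
    have hFi := hF i
    have h3 : rel F (i + (F i : ZMod r)) i := by
      refine ⟨r - F i, by omega, by omega, ?_⟩
      rw [add_assoc, ← Nat.cast_add]
      have : F i + (r - F i) = r := by omega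
      rw [this]
      simp
    obtain ⟨x, hx⟩ := h.nonempty i
    obtain ⟨y, hy⟩ := h.nonempty (i + (F i : ZMod r))
    have hne := rel_ne h h1
    have h4 : G.Adj x y := by
      rw [adj_iff h (by rw [hx, hy]; exact hne), hx, hy]
      exact h1
    have h5 : G.Adj y x := by
      rw [adj_iff h (by rw [hx, hy]; exact hne.symm), hx, hy]
      exact h3
    exact hanti _ _ h4 h5
  have h3 : (j - i).val = F i + k := by
    have : j - i = ((F i + k : ℕ) : ZMod r) := by
      rw [hk3]
      push_cast
      ring
    rw [this]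
    exact ZMod.val_cast_of_lt h2
  refine ⟨h1, ?_, ?_⟩
  · rintro rfl
    simp at h3
    omega
  · rw [rel_iff F hF, h3]
    omega

/-- The pairs at distance two. -/
theorem two_ge (h : RoundComposition G r c F B) (hanti : ∀ u v, G.Adj u v → ¬ G.Adj v u)
    (x y : V) :
    (if c y = c x then a G y x - (if Cov G c y x then 1 else 0) else 0)
      + (if rel F (c x + (F (c x) : ZMod r)) (c y) then 1 else 0) ≤ two G x y := by
  by_cases hc : c y = c x
  · have h1 : ¬ rel F (c x + (F (c x) : ZMod r)) (c y) := by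
      intro hr
      exact (step h hanti _ _ hr).2.1 hc.symm
    rw [if_pos hc, if_neg h1, add_zero]
    by_cases hyx : G.Adj y x
    · have hxy := hanti _ _ hyx
      have h2 : a G y x = 1 := if_pos hyx
      rw [h2]
      by_cases hcov : Cov G c y x
      · rw [if_pos hcov, sub_self]
        exact two_nonneg G x y
      · rw [if_neg hcov, sub_zero]
        have hne : x ≠ y := by
          rintro rfl
          exact hxy hyx
        have h3 : ∃ v, G.Adj x v ∧ G.Adj v y := by
          rcases h.arcs y x hc hyx with h4 | h4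
          · exact h4
          · exact absurd ⟨hyx, h4.1, h4.2⟩ hcov
        unfold two
        rw [if_pos ⟨hne, hxy, h3⟩]
    · have h2 : a G y x = 0 := if_neg hyx
      have h3 : ¬ Cov G c y x := fun hcov => hyx hcov.1
      rw [h2, if_neg h3, sub_zero]
      exact two_nonneg G x y
  · rw [if_neg hc, zero_add]
    by_cases hr : rel F (c x + (F (c x) : ZMod r)) (c y)
    · rw [if_pos hr]
      obtain ⟨h1, h2, h3⟩ := step h hanti _ _ hr
      obtain ⟨z, hz⟩ := h.nonempty (c x + (F (c x) : ZMod r))
      have h4 : G.Adj x z := by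
        rw [adj_iff h (by rw [hz]; exact rel_ne h h1), hz]
        exact h1
      have h5 : G.Adj z y := by
        rw [adj_iff h (by rw [hz]; exact rel_ne h hr), hz]
        exact hr
      have h6 : ¬ G.Adj x y := by
        rw [adj_iff h h2]
        exact h3
      unfold two
      rw [if_pos ⟨fun e => hc (by rw [e]), h6, z, h4, h5⟩]
    · rw [if_neg hr]
      exact two_nonneg G x y

/-- The adjacency matrix splits. -/
theorem a_split (h : RoundComposition G r c F B) (x y : V) :
    a G x y = (if c y = c x then a G x y else 0) + (if rel F (c x) (c y) then 1 else 0) := by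
  by_cases hc : c y = c x
  · have h1 : ¬ rel F (c x) (c y) := fun hr => rel_ne h hr hc.symm
    rw [if_pos hc, if_neg h1, add_zero]
  · rw [if_neg hc, zero_add]
    unfold a
    rw [adj_iff h (Ne.symm hc)]

/-- The structure of a cluster. -/
theorem dom (hanti : ∀ u v, G.Adj u v → ¬ G.Adj v u) (i : ZMod r) :
    Dom (fun x y : {x // c x = i} => Cov G c (x : V) (y : V))
      (fun x y : {x // c x = i} => a G (x : V) (y : V) - a G (y : V) (x : V)) where
  skew := fun x y => by ring
  mono := by
    rintro ⟨x, hx⟩ ⟨y, hy⟩ ⟨z, hz⟩ ⟨h1, h2, h3⟩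
    have h4 : a G y z ≤ a G x z := by
      unfold a
      by_cases h : G.Adj y z
      · rw [if_pos h, if_pos (h2 z (by simp only; rw [hz, hx]) h)]
      · rw [if_neg h]
        split_ifs <;> norm_num
    have h5 : a G z x ≤ a G z y := by
      unfold a
      by_cases h : G.Adj z x
      · rw [if_pos h, if_pos (h3 z (by simp only; rw [hz, hx]) h)]
      · rw [if_neg h]
        split_ifs <;> norm_num
    show a G y z - a G z y ≤ a G x z - a G z x
    linarith
  one := by
    rintro ⟨x, hx⟩ ⟨y, hy⟩ ⟨h1, _, _⟩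
    show 1 ≤ a G x y - a G y x
    have h2 : a G x y = 1 := if_pos h1
    have h3 : a G y x = 0 := if_neg (hanti _ _ h1)
    rw [h2, h3]
    norm_num
  trans := by
    rintro ⟨x, hx⟩ ⟨y, hy⟩ ⟨z, hz⟩ ⟨h1, h2, h3⟩ ⟨h4, h5, h6⟩
    simp only at h1 h2 h3 h4 h5 h6
    refine ⟨h2 z (by rw [hz, hx]) h4, ?_, ?_⟩
    · intro t ht htz
      simp only at ht htz ⊢
      exact h2 t ht (h5 t (by rw [ht, hx, hy]) htz)
    · intro t ht htx
      simp only at ht htx ⊢
      exact h6 t (by rw [ht, hx, hy]) (h3 t ht htx)
  low := by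
    rintro ⟨x, hx⟩ ⟨y, hy⟩
    show -1 ≤ a G x y - a G y x
    unfold a
    split_ifs <;> norm_num

/-- The clusters. -/
theorem cluster_sum (h : RoundComposition G r c F B) (hanti : ∀ u v, G.Adj u v → ¬ G.Adj v u) :
    (∑ x, ∑ y, if c y = c x then (if Cov G c x y then 1 else 0 : ℤ) else 0)
      + ∑ i, hub (pw F (wt c) i) (qw F (wt c) i) (wt c i)
      ≤ ∑ x, phiZ (∑ y, a G x y - ∑ y, a G y x) := by
  rw [← Fintype.sum_fiberwise c (fun x => phiZ (∑ y, a G x y - ∑ y, a G y x)),
    ← fiber_double c (fun x y => if Cov G c x y then 1 else 0), ← Finset.sum_add_distrib]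
  refine Finset.sum_le_sum fun i _ => ?_
  have h1 := shift_ge (dom (c := c) hanti i) ((pw F (wt c) i : ℤ) - qw F (wt c) i)
  rw [hub_eq]
  refine h1.trans (le_of_eq ?_)
  refine Finset.sum_congr rfl fun x _ => ?_
  congr 1
  obtain ⟨x, hx⟩ := x
  simp only
  have h2 : ∑ y, a G x y = ∑ y, (if c y = i then a G x y else 0) + pw F (wt c) i := by
    rw [pw_eq, ← Finset.sum_add_distrib]
    refine Finset.sum_congr rfl fun y _ => ?_
    conv_lhs => rw [a_split h x y]
    rw [hx]
  have h3 : ∑ y, a G y x = ∑ y, (if c y = i then a G y x else 0) + qw F (wt c) i := by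
    rw [qw_eq, ← Finset.sum_add_distrib]
    refine Finset.sum_congr rfl fun y _ => ?_
    conv_lhs => rw [a_split h y x]
    rw [hx]
    by_cases hy : c y = i
    · rw [if_pos hy, if_pos hy.symm]
    · rw [if_neg hy, if_neg (Ne.symm hy)]
  rw [Finset.sum_sub_distrib, fiber_sum c i (fun y => a G x y), fiber_sum c i (fun y => a G y x),
    h2, h3]
  ring

end

/-- The condition on the arcs of the clusters holds for quasi-transitive clusters, in particular
for tournaments and for transitive digraphs. -/
theorem arcs_of_quasi {V : Type} {G : Digraph V} {r : ℕ} {c : V → ZMod r}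
    (quasi : ∀ x y z, c x = c y → c y = c z → G.Adj x y → G.Adj y z → G.Adj x z ∨ G.Adj z x)
    (x y : V) (hc : c x = c y) (hxy : G.Adj x y) : (∃ z, G.Adj y z ∧ G.Adj z x) ∨
    ((∀ z, c z = c x → G.Adj y z → G.Adj x z) ∧ (∀ z, c z = c x → G.Adj z x → G.Adj z y)) := by
  by_cases hex : ∃ z, G.Adj y z ∧ G.Adj z x
  · exact Or.inl hex
  · refine Or.inr ⟨?_, ?_⟩
    · intro z hz hyz
      rcases quasi x y z hc (by rw [hz, hc]) hxy hyz with h4 | h4
      · exact h4
      · exact absurd ⟨z, hyz, h4⟩ hex
    · intro z hz hzx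
      rcases quasi z x y hz hc hzx hxy with h4 | h4
      · exact h4
      · exact absurd ⟨z, h4, hzx⟩ hex

/-- **Theorem.** The inequality of Thomasse holds for all compositions of a round oriented graph
with nonempty tournaments, more generally with nonempty oriented graphs as in the definition of
`RoundComposition`. -/
theorem result (V : Type) [Fintype V] (G : Digraph V) (hirr : ∀ u, ¬ G.Adj u u)
    (hanti : ∀ u v, G.Adj u v → ¬ G.Adj v u) (r : ℕ) [NeZero r] (c : V → ZMod r)
    (F B : ZMod r → ℕ) (h : RoundComposition G r c F B) :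
    (∑ v : V, |((Finset.univ.filter (fun w => G.Adj v w)).card : ℤ)
                  - ((Finset.univ.filter (fun w => G.Adj w v)).card : ℤ)|)
        + ((Finset.univ.filter (fun p : V × V =>
              p.1 ≠ p.2 ∧ (G.Adj p.1 p.2 ∨ ∃ w, G.Adj p.1 w ∧ G.Adj w p.2))).card : ℤ)
      ≥ 2 * ((Finset.univ.filter (fun p : V × V => G.Adj p.1 p.2)).card : ℤ)
        + ((Finset.univ.filter (fun v =>
              (Finset.univ.filter (fun w => G.Adj w v)).card
                < (Finset.univ.filter (fun w => G.Adj v w)).card)).card : ℤ) := by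
  have hE : ((Finset.univ.filter (fun p : V × V => G.Adj p.1 p.2)).card : ℤ)
      = ∑ u, ∑ v, a G u v := card_pairs fun u v => G.Adj u v
  have hS : ((Finset.univ.filter (fun v =>
              (Finset.univ.filter (fun w => G.Adj w v)).card
                < (Finset.univ.filter (fun w => G.Adj v w)).card)).card : ℤ)
      = ∑ v, (if (Finset.univ.filter (fun w => G.Adj w v)).card
                < (Finset.univ.filter (fun w => G.Adj v w)).card then 1 else 0) :=
    (Finset.sum_boole _ _).symm
  have hP : ((Finset.univ.filter (fun p : V × V =>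
      p.1 ≠ p.2 ∧ (G.Adj p.1 p.2 ∨ ∃ w, G.Adj p.1 w ∧ G.Adj w p.2))).card : ℤ)
      = ∑ u, ∑ v, a G u v + ∑ u, ∑ w, two G u w := by
    have h0 : ((Finset.univ.filter (fun p : V × V =>
        p.1 ≠ p.2 ∧ (G.Adj p.1 p.2 ∨ ∃ w, G.Adj p.1 w ∧ G.Adj w p.2))).card : ℤ)
        = ∑ u, ∑ v, (if u ≠ v ∧ (G.Adj u v ∨ ∃ w, G.Adj u w ∧ G.Adj w v) then 1 else 0) := by
      have h := card_pairs (fun u v : V => u ≠ v ∧ (G.Adj u v ∨ ∃ w, G.Adj u w ∧ G.Adj w v))
      convert h
    rw [h0, ← Finset.sum_add_distrib]
    refine Finset.sum_congr rfl fun u _ => ?_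
    rw [← Finset.sum_add_distrib]
    refine Finset.sum_congr rfl fun v _ => ?_
    unfold a two
    by_cases h1 : G.Adj u v
    · have hne : u ≠ v := by
        rintro rfl
        exact hirr _ h1
      simp [h1, hne]
    · simp [h1]
  -- the imbalance
  have hI : ∑ x, phiZ (∑ y, a G x y - ∑ y, a G y x)
      = (∑ v : V, |((Finset.univ.filter (fun w => G.Adj v w)).card : ℤ)
                  - ((Finset.univ.filter (fun w => G.Adj w v)).card : ℤ)|)
        - ∑ v, (if (Finset.univ.filter (fun w => G.Adj w v)).card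
                < (Finset.univ.filter (fun w => G.Adj v w)).card then 1 else 0) := by
    rw [← Finset.sum_sub_distrib]
    refine Finset.sum_congr rfl fun v _ => ?_
    rw [← outDeg_eq, ← inDeg_eq]
    unfold phiZ
    congr 1
    refine if_congr ?_ rfl rfl
    omega
  -- the clusters
  have hC := cluster_sum h hanti
  -- the round graph
  have hR := cyc_ineq F B (wt c) (fun i => (h.lt i).1) (hFB h) (fun i => by
    obtain ⟨x, hx⟩ := h.nonempty i
    exact Fintype.card_pos_iff.2 ⟨⟨x, hx⟩⟩)
  rw [wt_mul c (fun i => (pw F (wt c) i : ℤ)),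
    wt_mul c (fun i => (pw F (wt c) (i + (F i : ZMod r)) : ℤ))] at hR
  -- the arcs
  have hA : ∑ u, ∑ v, a G u v = (∑ x, ∑ y, if c y = c x then a G x y else 0)
      + ∑ x, (pw F (wt c) (c x) : ℤ) := by
    rw [← Finset.sum_add_distrib]
    refine Finset.sum_congr rfl fun x _ => ?_
    rw [pw_eq, ← Finset.sum_add_distrib]
    exact Finset.sum_congr rfl fun y _ => a_split h x y
  -- the pairs at distance two
  have hN : (∑ x, ∑ y, if c y = c x then a G y x - (if Cov G c y x then 1 else 0 : ℤ) else 0)
      + ∑ x, (pw F (wt c) (c x + (F (c x) : ZMod r)) : ℤ) ≤ ∑ u, ∑ w, two G u w := by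
    rw [← Finset.sum_add_distrib]
    refine Finset.sum_le_sum fun x _ => ?_
    rw [pw_eq, ← Finset.sum_add_distrib]
    exact Finset.sum_le_sum fun y _ => two_ge h hanti x y
  have hN2 : (∑ x, ∑ y, if c y = c x then a G y x - (if Cov G c y x then 1 else 0 : ℤ) else 0)
      = (∑ x, ∑ y, if c y = c x then a G x y else 0)
        - ∑ x, ∑ y, if c y = c x then (if Cov G c x y then 1 else 0 : ℤ) else 0 := by
    rw [Finset.sum_comm, ← Finset.sum_sub_distrib]
    refine Finset.sum_congr rfl fun x _ => ?_
    rw [← Finset.sum_sub_distrib]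
    refine Finset.sum_congr rfl fun y _ => ?_
    by_cases hc : c y = c x
    · rw [if_pos hc.symm, if_pos hc, if_pos hc]
    · rw [if_neg (Ne.symm hc), if_neg hc, if_neg hc, sub_zero]
  rw [hE, hS, hP]
  rw [hN2] at hN
  rw [hI] at hC
  have key : ∑ u, ∑ v, a G u v + ∑ v, (if (Finset.univ.filter (fun w => G.Adj w v)).card
                < (Finset.univ.filter (fun w => G.Adj v w)).card then 1 else 0)
      ≤ (∑ v : V, |((Finset.univ.filter (fun w => G.Adj v w)).card : ℤ)
                  - ((Finset.univ.filter (fun w => G.Adj w v)).card : ℤ)|)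
        + ∑ u, ∑ w, two G u w := by
    rw [hA]
    linarith
  linarith

end Pool.Agent.Results.MP_8665f8_co.RoundCompositions
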