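import Mathlib

/-!
Three quarters of the degree-imbalance inequality of Thomasse, for all oriented graphs.
-/

set_option autoImplicit false

open Classical

namespace Pool.Agent.Results.MP_8665f8_co.ThreeQuarters

open Finset

/-! ### The inequality for one arc -/

/-- The share of the tail of an arc. -/
def At (p q : ℕ) : ℚ := if q < p then (q + 1 / 2) / p else 1

/-- The share of the head of an arc. -/
def Bt (p q : ℕ) : ℚ := if p < q then p / q else 1

theorem arc_ineq (pu qu pv qv : ℕ) (hpu : 1 ≤ pu) (hqv : 1 ≤ qv) :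
    At pu qu + Bt pv qv - 1 ≤ 1 / 2 * ((pv : ℚ) / pu) + 1 / 2 * ((qu : ℚ) / qv) := by
  have hP : (0 : ℚ) < pu := by exact_mod_cast hpu
  have hQ : (0 : ℚ) < qv := by exact_mod_cast hqv
  have hpv0 : (0 : ℚ) ≤ pv := by positivity
  have hqu0 : (0 : ℚ) ≤ qu := by positivity
  rcases lt_or_ge qu pu with h1 | h1
  · have a1 : At pu qu = (qu + 1 / 2) / pu := by
      unfold At
      rw [if_pos h1]
    have i1 : (qu : ℚ) + 1 ≤ pu := by exact_mod_cast h1
    rcases lt_or_ge qv pv with h2 | h2
    · have b2 : Bt pv qv = 1 := by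
        unfold Bt
        rw [if_neg (by omega)]
      have i2 : (qv : ℚ) + 1 ≤ pv := by exact_mod_cast h2
      rw [a1, b2]
      have key : 1 / 2 * ((pv : ℚ) / pu) + 1 / 2 * ((qu : ℚ) / qv) - ((qu + 1 / 2) / pu + 1 - 1)
          = (pv * qv + qu * pu - (2 * qu + 1) * qv) / (2 * pu * qv) := by
        field_simp
        ring
      have h3 : 0 ≤ ((pv : ℚ) * qv + qu * pu - (2 * qu + 1) * qv) / (2 * pu * qv) := by
        apply div_nonneg _ (by positivity)
        nlinarith [sq_nonneg ((qv : ℚ) - qu), mul_nonneg (sub_nonneg.2 i2) hQ.le,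
          mul_nonneg (sub_nonneg.2 i1) hqu0]
      linarith
    · have b2 : Bt pv qv = pv / qv := by
        unfold Bt
        split_ifs with h
        · rfl
        · have : pv = qv := by omega
          rw [this, div_self hQ.ne']
      have i2 : (pv : ℚ) ≤ qv := by exact_mod_cast h2
      rw [a1, b2]
      have key : 1 / 2 * ((pv : ℚ) / pu) + 1 / 2 * ((qu : ℚ) / qv)
            - ((qu + 1 / 2) / pu + pv / qv - 1)
          = (pv * qv + qu * pu - (2 * qu + 1) * qv - 2 * pu * pv + 2 * pu * qv)
            / (2 * pu * qv) := by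
        field_simp
        ring
      have h4 : (0 : ℤ) ≤ ((qu : ℤ) - pv) * ((qu : ℤ) - pv + 1) := by
        rcases le_or_gt (0 : ℤ) ((qu : ℤ) - pv) with h | h
        · exact mul_nonneg h (by omega)
        · exact mul_nonneg_of_nonpos_of_nonpos h.le (by omega)
      have h5 : (0 : ℚ) ≤ ((qu : ℚ) - pv) * ((qu : ℚ) - pv + 1) := by exact_mod_cast h4
      have h3 : 0 ≤ ((pv : ℚ) * qv + qu * pu - (2 * qu + 1) * qv - 2 * pu * pv + 2 * pu * qv)
          / (2 * pu * qv) := by
        apply div_nonneg _ (by positivity)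
        nlinarith [mul_nonneg (sub_nonneg.2 i1) (sub_nonneg.2 i2),
          mul_nonneg (sub_nonneg.2 i1) hqu0, mul_nonneg (sub_nonneg.2 i2) hpv0]
      linarith
  · have a1 : At pu qu = 1 := by
      unfold At
      rw [if_neg (by omega)]
    have i1 : (pu : ℚ) ≤ qu := by exact_mod_cast h1
    rcases lt_or_ge qv pv with h2 | h2
    · have b2 : Bt pv qv = 1 := by
        unfold Bt
        rw [if_neg (by omega)]
      have i2 : (qv : ℚ) ≤ pv := by exact_mod_cast h2.le
      rw [a1, b2]
      have key : 1 / 2 * ((pv : ℚ) / pu) + 1 / 2 * ((qu : ℚ) / qv) - (1 + 1 - 1)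
          = (pv * qv + qu * pu - 2 * pu * qv) / (2 * pu * qv) := by
        field_simp
        ring
      have h3 : 0 ≤ ((pv : ℚ) * qv + qu * pu - 2 * pu * qv) / (2 * pu * qv) := by
        apply div_nonneg _ (by positivity)
        nlinarith [sq_nonneg ((qv : ℚ) - pu), mul_nonneg (sub_nonneg.2 i2) hQ.le,
          mul_nonneg (sub_nonneg.2 i1) hP.le]
      linarith
    · have b2 : Bt pv qv = pv / qv := by
        unfold Bt
        split_ifs with h
        · rfl
        · have : pv = qv := by omega
          rw [this, div_self hQ.ne']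
      have i2 : (pv : ℚ) ≤ qv := by exact_mod_cast h2
      rw [a1, b2]
      have key : 1 / 2 * ((pv : ℚ) / pu) + 1 / 2 * ((qu : ℚ) / qv) - (1 + pv / qv - 1)
          = (pv * qv + qu * pu - 2 * pu * pv) / (2 * pu * qv) := by
        field_simp
        ring
      have h3 : 0 ≤ ((pv : ℚ) * qv + qu * pu - 2 * pu * pv) / (2 * pu * qv) := by
        apply div_nonneg _ (by positivity)
        nlinarith [sq_nonneg ((pv : ℚ) - pu), mul_nonneg (sub_nonneg.2 i2) hpv0,
          mul_nonneg (sub_nonneg.2 i1) hP.le]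
      linarith

theorem vertex_identity (p q : ℕ) :
    (p : ℚ) * At p q + q * Bt p q = p + q - |(p : ℚ) - q| + (if q < p then 1 / 2 else 0) := by
  unfold At Bt
  rcases lt_trichotomy q p with h | h | h
  · have hp : (p : ℚ) ≠ 0 := by
      have : p ≠ 0 := by omega
      exact_mod_cast this
    have h1 : (0 : ℚ) ≤ (p : ℚ) - q := by
      have : (q : ℚ) ≤ p := by exact_mod_cast h.le
      linarith
    rw [if_pos h, if_neg (by omega), if_pos h, abs_of_nonneg h1, mul_div_cancel₀ _ hp]
    ring
  · subst h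
    simp
  · have hq : (q : ℚ) ≠ 0 := by
      have : q ≠ 0 := by omega
      exact_mod_cast this
    have h1 : (p : ℚ) - q ≤ 0 := by
      have : (p : ℚ) ≤ q := by exact_mod_cast h.le
      linarith
    rw [if_neg (by omega), if_pos h, if_neg (by omega), abs_of_nonpos h1, mul_div_cancel₀ _ hq]
    ring

variable {V : Type}

/-- The adjacency matrix. -/
noncomputable def mt (G : Digraph V) (u v : V) : ℚ := if G.Adj u v then 1 else 0

theorem mt_nonneg (G : Digraph V) (u v : V) : 0 ≤ mt G u v := by
  unfold mt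
  split_ifs <;> norm_num

theorem mt_le_one (G : Digraph V) (u v : V) : mt G u v ≤ 1 := by
  unfold mt
  split_ifs <;> norm_num

theorem mt_sq (G : Digraph V) (u v : V) : mt G u v * mt G u v = mt G u v := by
  unfold mt
  split_ifs <;> norm_num

section

variable [Fintype V]

/-- The out-degree. -/
noncomputable def outDeg (G : Digraph V) (v : V) : ℕ :=
  (Finset.univ.filter (fun w => G.Adj v w)).card

/-- The in-degree. -/
noncomputable def inDeg (G : Digraph V) (v : V) : ℕ :=
  (Finset.univ.filter (fun w => G.Adj w v)).card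

theorem outDeg_eq (G : Digraph V) (v : V) : (outDeg G v : ℚ) = ∑ w, mt G v w := by
  unfold outDeg mt
  rw [Finset.sum_boole]

theorem inDeg_eq (G : Digraph V) (v : V) : (inDeg G v : ℚ) = ∑ w, mt G w v := by
  unfold inDeg mt
  rw [Finset.sum_boole]

/-- Indicator of the pairs at distance exactly two. -/
noncomputable def two (G : Digraph V) (u w : V) : ℚ :=
  if u ≠ w ∧ ¬ G.Adj u w ∧ ∃ v, G.Adj u v ∧ G.Adj v w then 1 else 0

theorem two_nonneg (G : Digraph V) (u w : V) : 0 ≤ two G u w := by
  unfold two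
  split_ifs <;> norm_num

/-- The weight of a path from `u` to `w`. -/
noncomputable def cw (G : Digraph V) (u w : V) : ℚ :=
  1 / 2 * (1 / (outDeg G u : ℚ)) + 1 / 2 * (1 / (inDeg G w : ℚ))

theorem cw_nonneg (G : Digraph V) (u w : V) : 0 ≤ cw G u w := by
  unfold cw
  positivity

/-- The weights of the paths from `u` to `w` add up to at most one. -/
theorem path_sum_le (G : Digraph V) (hanti : ∀ u v, G.Adj u v → ¬ G.Adj v u) (u w : V) :
    (∑ v, mt G u v * mt G v w) * (1 - mt G u w) * cw G u w ≤ two G u w := by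
  by_cases hadj : G.Adj u w
  · have h0 : mt G u w = 1 := by
      unfold mt
      rw [if_pos hadj]
    rw [h0, sub_self, mul_zero, zero_mul]
    exact two_nonneg G u w
  · have h0 : mt G u w = 0 := by
      unfold mt
      rw [if_neg hadj]
    rw [h0, sub_zero, mul_one]
    by_cases hex : ∃ v, G.Adj u v ∧ G.Adj v w
    · have hne : u ≠ w := by
        rintro rfl
        obtain ⟨v, h1, h2⟩ := hex
        exact hanti _ _ h1 h2
      have h1 : two G u w = 1 := by
        unfold two
        rw [if_pos ⟨hne, hadj, hex⟩]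
      rw [h1]
      obtain ⟨v0, hv1, hv2⟩ := hex
      have hp : (0 : ℚ) < outDeg G u := by
        have : 0 < outDeg G u := Finset.card_pos.2 ⟨v0, by simpa using hv1⟩
        exact_mod_cast this
      have hq : (0 : ℚ) < inDeg G w := by
        have : 0 < inDeg G w := Finset.card_pos.2 ⟨v0, by simpa using hv2⟩
        exact_mod_cast this
      have h5 : ∑ v, mt G u v * mt G v w ≤ outDeg G u := by
        rw [outDeg_eq]
        refine Finset.sum_le_sum fun v _ => ?_
        have h3 := mt_nonneg G u v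
        have h4 := mt_le_one G v w
        nlinarith
      have h6 : ∑ v, mt G u v * mt G v w ≤ inDeg G w := by
        rw [inDeg_eq]
        refine Finset.sum_le_sum fun v _ => ?_
        have h3 := mt_nonneg G v w
        have h4 := mt_le_one G u v
        nlinarith
      have h7 : (∑ v, mt G u v * mt G v w) / outDeg G u ≤ 1 := by
        rw [div_le_one hp]
        exact h5
      have h8 : (∑ v, mt G u v * mt G v w) / inDeg G w ≤ 1 := by
        rw [div_le_one hq]
        exact h6
      have h9 : (∑ v, mt G u v * mt G v w) * cw G u w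
          = 1 / 2 * ((∑ v, mt G u v * mt G v w) / outDeg G u)
            + 1 / 2 * ((∑ v, mt G u v * mt G v w) / inDeg G w) := by
        unfold cw
        ring
      rw [h9]
      linarith
    · have : ∑ v, mt G u v * mt G v w = 0 := by
        refine Finset.sum_eq_zero fun v _ => ?_
        unfold mt
        by_cases h2 : G.Adj u v
        · have h3 : ¬ G.Adj v w := fun h => hex ⟨v, h2, h⟩
          rw [if_neg h3, mul_zero]
        · rw [if_neg h2, zero_mul]
      rw [this, zero_mul]
      exact two_nonneg G u w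

/-- The total weight of the paths of length two. -/
theorem total_weight (G : Digraph V) :
    ∑ u, ∑ w, (∑ v, mt G u v * mt G v w) * cw G u w
      = ∑ u, ∑ v, mt G u v *
        (1 / 2 * ((outDeg G v : ℚ) / outDeg G u) + 1 / 2 * ((inDeg G u : ℚ) / inDeg G v)) := by
  have h1 : ∀ u, ∑ w, (∑ v, mt G u v * mt G v w) * cw G u w
      = ∑ v, mt G u v * (1 / 2 * ((outDeg G v : ℚ) / outDeg G u))
        + ∑ w, ∑ v, mt G u v * mt G v w * (1 / 2 * (1 / (inDeg G w : ℚ))) := by
    intro u
    have e1 : ∑ v, mt G u v * (1 / 2 * ((outDeg G v : ℚ) / outDeg G u))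
        = ∑ w, ∑ v, mt G u v * mt G v w * (1 / 2 * (1 / (outDeg G u : ℚ))) := by
      rw [Finset.sum_comm]
      refine Finset.sum_congr rfl fun v _ => ?_
      rw [← Finset.sum_mul, ← Finset.mul_sum, ← outDeg_eq]
      ring
    rw [e1, ← Finset.sum_add_distrib]
    refine Finset.sum_congr rfl fun w _ => ?_
    rw [Finset.sum_mul, ← Finset.sum_add_distrib]
    refine Finset.sum_congr rfl fun v _ => ?_
    unfold cw
    ring
  simp only [h1, Finset.sum_add_distrib, mul_add]
  congr 1
  have e2 : ∑ u, ∑ w, ∑ v, mt G u v * mt G v w * (1 / 2 * (1 / (inDeg G w : ℚ)))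
      = ∑ v, ∑ w, ∑ u, mt G u v * mt G v w * (1 / 2 * (1 / (inDeg G w : ℚ))) := by
    rw [Finset.sum_comm]
    rw [Finset.sum_comm (f := fun v w => ∑ u, mt G u v * mt G v w * (1 / 2 * (1 / (inDeg G w : ℚ))))]
    refine Finset.sum_congr rfl fun w _ => ?_
    exact Finset.sum_comm
  rw [e2]
  refine Finset.sum_congr rfl fun v _ => Finset.sum_congr rfl fun w _ => ?_
  have e3 : ∀ u, mt G u v * mt G v w * (1 / 2 * (1 / (inDeg G w : ℚ)))
      = mt G u v * (mt G v w * (1 / 2 * (1 / (inDeg G w : ℚ)))) := fun u => by ring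
  simp only [e3]
  rw [← Finset.sum_mul, ← inDeg_eq]
  ring

/-- Lower bound for the total weight. -/
theorem weight_lower (G : Digraph V) :
    ∑ u, ∑ v, mt G u v - ∑ v, |(outDeg G v : ℚ) - inDeg G v|
      + ∑ v, (if inDeg G v < outDeg G v then 1 / 2 else 0)
      ≤ ∑ u, ∑ w, (∑ v, mt G u v * mt G v w) * cw G u w := by
  rw [total_weight]
  have h1 : ∑ u, ∑ v, mt G u v * (At (outDeg G u) (inDeg G u) + Bt (outDeg G v) (inDeg G v) - 1)
      ≤ ∑ u, ∑ v, mt G u v *
        (1 / 2 * ((outDeg G v : ℚ) / outDeg G u) + 1 / 2 * ((inDeg G u : ℚ) / inDeg G v)) := by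
    refine Finset.sum_le_sum fun u _ => Finset.sum_le_sum fun v _ => ?_
    by_cases h : G.Adj u v
    · refine mul_le_mul_of_nonneg_left ?_ (mt_nonneg G u v)
      refine arc_ineq _ _ _ _ ?_ ?_
      · exact Finset.card_pos.2 ⟨v, by simpa using h⟩
      · exact Finset.card_pos.2 ⟨u, by simpa using h⟩
    · have h0 : mt G u v = 0 := by
        unfold mt
        rw [if_neg h]
      rw [h0, zero_mul, zero_mul]
  refine le_trans (le_of_eq ?_) h1
  have h2 : ∑ u, ∑ v, mt G u v * (At (outDeg G u) (inDeg G u) + Bt (outDeg G v) (inDeg G v) - 1)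
      = ∑ u, (outDeg G u : ℚ) * At (outDeg G u) (inDeg G u)
        + ∑ v, (inDeg G v : ℚ) * Bt (outDeg G v) (inDeg G v) - ∑ u, ∑ v, mt G u v := by
    have e1 : ∀ u v, mt G u v * (At (outDeg G u) (inDeg G u) + Bt (outDeg G v) (inDeg G v) - 1)
        = mt G u v * At (outDeg G u) (inDeg G u) + mt G u v * Bt (outDeg G v) (inDeg G v)
          - mt G u v := by
      intro u v
      ring
    simp only [e1, Finset.sum_add_distrib, Finset.sum_sub_distrib]
    congr 1
    congr 1
    · refine Finset.sum_congr rfl fun u _ => ?_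
      rw [outDeg_eq, Finset.sum_mul]
    · rw [Finset.sum_comm]
      refine Finset.sum_congr rfl fun v _ => ?_
      rw [inDeg_eq, Finset.sum_mul]
  rw [h2, ← Finset.sum_add_distrib]
  have h3 : ∀ v, (outDeg G v : ℚ) * At (outDeg G v) (inDeg G v)
      + (inDeg G v : ℚ) * Bt (outDeg G v) (inDeg G v)
      = outDeg G v + inDeg G v - |(outDeg G v : ℚ) - inDeg G v|
        + (if inDeg G v < outDeg G v then 1 / 2 else 0) := fun v => vertex_identity _ _
  simp only [h3, Finset.sum_add_distrib, Finset.sum_sub_distrib]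
  have h4 : ∑ v, (outDeg G v : ℚ) = ∑ u, ∑ v, mt G u v :=
    Finset.sum_congr rfl fun u _ => outDeg_eq G u
  have h5 : ∑ v, (inDeg G v : ℚ) = ∑ u, ∑ v, mt G u v := by
    rw [Finset.sum_comm]
    exact Finset.sum_congr rfl fun u _ => inDeg_eq G u
  rw [h4, h5]
  ring

/-- Number of arcs inside a set. -/
theorem inside_le (G : Digraph V) (hanti : ∀ u v, G.Adj u v → ¬ G.Adj v u)
    (hirr : ∀ u, ¬ G.Adj u u) (a : V → ℚ) (ha : ∀ v, a v * a v = a v) (ha0 : ∀ v, 0 ≤ a v) :
    ∑ v, ∑ w, a v * a w * mt G v w ≤ (∑ v, a v) * (∑ v, a v - 1) / 2 := by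
  have h1 : ∑ v, ∑ w, a v * a w * mt G v w = ∑ v, ∑ w, a v * a w * mt G w v := by
    rw [Finset.sum_comm]
    refine Finset.sum_congr rfl fun v _ => Finset.sum_congr rfl fun w _ => ?_
    ring
  have h2 : ∑ v, ∑ w, a v * a w * mt G v w + ∑ v, ∑ w, a v * a w * mt G w v
      ≤ ∑ v, ∑ w, (a v * a w - (if v = w then a v else 0)) := by
    rw [← Finset.sum_add_distrib]
    refine Finset.sum_le_sum fun v _ => ?_
    rw [← Finset.sum_add_distrib]
    refine Finset.sum_le_sum fun w _ => ?_
    have h3 := ha0 v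
    have h4 := ha0 w
    have h5 := mul_nonneg h3 h4
    by_cases hvw : v = w
    · subst hvw
      have h6 : mt G v v = 0 := if_neg (hirr v)
      rw [if_pos rfl, h6, ha v]
      simp
    · rw [if_neg hvw, sub_zero, ← mul_add]
      have h6 : mt G v w + mt G w v ≤ 1 := by
        unfold mt
        by_cases h : G.Adj v w
        · rw [if_pos h, if_neg (hanti _ _ h)]
          norm_num
        · rw [if_neg h]
          split_ifs <;> norm_num
      calc a v * a w * (mt G v w + mt G w v) ≤ a v * a w * 1 := mul_le_mul_of_nonneg_left h6 h5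
        _ = a v * a w := mul_one _
  have h3 : ∑ v, ∑ w, (a v * a w - (if v = w then a v else 0))
      = (∑ v, a v) * (∑ v, a v) - ∑ v, a v := by
    have e : ∀ v, ∑ w, (a v * a w - (if v = w then a v else 0)) = a v * ∑ w, a w - a v := by
      intro v
      rw [Finset.sum_sub_distrib, ← Finset.mul_sum, Finset.sum_ite_eq]
      simp
    simp only [e]
    rw [Finset.sum_sub_distrib, ← Finset.sum_mul]
  rw [← h1, h3] at h2
  linarith

/-- The weight of the transitive triangles. -/
theorem triangle_weight (G : Digraph V) (hanti : ∀ u v, G.Adj u v → ¬ G.Adj v u)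
    (hirr : ∀ u, ¬ G.Adj u u) :
    ∑ u, ∑ w, (∑ v, mt G u v * mt G v w) * mt G u w * cw G u w
      ≤ (∑ u, ∑ v, mt G u v) / 2
        - (∑ v, (if 0 < outDeg G v then 1 else 0)) / 4
        - (∑ v, (if 0 < inDeg G v then 1 else 0)) / 4 := by
  have h1 : ∀ u, ∑ w, (∑ v, mt G u v * mt G v w) * mt G u w * (1 / 2 * (1 / (outDeg G u : ℚ)))
      ≤ (∑ v, mt G u v) / 4 - (if 0 < outDeg G u then 1 else 0) / 4 := by
    intro u
    by_cases hu : 0 < outDeg G u
    · rw [if_pos hu]
      have hu' : (0 : ℚ) < outDeg G u := by exact_mod_cast hu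
      have h2 := inside_le G hanti hirr (fun v => mt G u v) (fun v => mt_sq G u v)
        (fun v => mt_nonneg G u v)
      have h3 : ∑ w, (∑ v, mt G u v * mt G v w) * mt G u w * (1 / 2 * (1 / (outDeg G u : ℚ)))
          = (∑ v, ∑ w, mt G u v * mt G u w * mt G v w) * (1 / 2 * (1 / (outDeg G u : ℚ))) := by
        rw [← Finset.sum_mul]
        congr 1
        rw [Finset.sum_comm]
        refine Finset.sum_congr rfl fun w _ => ?_
        rw [Finset.sum_mul]
        refine Finset.sum_congr rfl fun v _ => ?_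
        ring
      rw [h3]
      rw [← outDeg_eq] at h2 ⊢
      have h4 : (∑ v, ∑ w, mt G u v * mt G u w * mt G v w) * (1 / 2 * (1 / (outDeg G u : ℚ)))
          ≤ ((outDeg G u : ℚ) * (outDeg G u - 1) / 2) * (1 / 2 * (1 / (outDeg G u : ℚ))) :=
        mul_le_mul_of_nonneg_right h2 (by positivity)
      refine h4.trans (le_of_eq ?_)
      field_simp
      ring
    · rw [if_neg hu]
      have h0 : outDeg G u = 0 := by omega
      rw [h0]
      simp only [Nat.cast_zero, div_zero, mul_zero, Finset.sum_const_zero, zero_div, sub_zero]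
      have : 0 ≤ ∑ v, mt G u v := Finset.sum_nonneg fun v _ => mt_nonneg G u v
      positivity
  have h2 : ∀ w, ∑ u, (∑ v, mt G u v * mt G v w) * mt G u w * (1 / 2 * (1 / (inDeg G w : ℚ)))
      ≤ (∑ v, mt G v w) / 4 - (if 0 < inDeg G w then 1 else 0) / 4 := by
    intro w
    by_cases hw : 0 < inDeg G w
    · rw [if_pos hw]
      have hw' : (0 : ℚ) < inDeg G w := by exact_mod_cast hw
      have h2 := inside_le G hanti hirr (fun v => mt G v w) (fun v => mt_sq G v w)
        (fun v => mt_nonneg G v w)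
      have h3 : ∑ u, (∑ v, mt G u v * mt G v w) * mt G u w * (1 / 2 * (1 / (inDeg G w : ℚ)))
          = (∑ u, ∑ v, mt G u w * mt G v w * mt G u v) * (1 / 2 * (1 / (inDeg G w : ℚ))) := by
        rw [← Finset.sum_mul]
        congr 1
        refine Finset.sum_congr rfl fun u _ => ?_
        rw [Finset.sum_mul]
        refine Finset.sum_congr rfl fun v _ => ?_
        ring
      rw [h3]
      rw [← inDeg_eq] at h2 ⊢
      have h4 : (∑ u, ∑ v, mt G u w * mt G v w * mt G u v) * (1 / 2 * (1 / (inDeg G w : ℚ)))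
          ≤ ((inDeg G w : ℚ) * (inDeg G w - 1) / 2) * (1 / 2 * (1 / (inDeg G w : ℚ))) :=
        mul_le_mul_of_nonneg_right h2 (by positivity)
      refine h4.trans (le_of_eq ?_)
      field_simp
      ring
    · rw [if_neg hw]
      have h0 : inDeg G w = 0 := by omega
      rw [h0]
      simp only [Nat.cast_zero, div_zero, mul_zero, Finset.sum_const_zero, zero_div, sub_zero]
      have : 0 ≤ ∑ v, mt G v w := Finset.sum_nonneg fun v _ => mt_nonneg G v w
      positivity
  have h3 : ∑ u, ∑ w, (∑ v, mt G u v * mt G v w) * mt G u w * cw G u w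
      = ∑ u, ∑ w, (∑ v, mt G u v * mt G v w) * mt G u w * (1 / 2 * (1 / (outDeg G u : ℚ)))
        + ∑ w, ∑ u, (∑ v, mt G u v * mt G v w) * mt G u w * (1 / 2 * (1 / (inDeg G w : ℚ))) := by
    rw [Finset.sum_comm (f := fun w u => (∑ v, mt G u v * mt G v w) * mt G u w *
      (1 / 2 * (1 / (inDeg G w : ℚ)))), ← Finset.sum_add_distrib]
    refine Finset.sum_congr rfl fun u _ => ?_
    rw [← Finset.sum_add_distrib]
    refine Finset.sum_congr rfl fun w _ => ?_
    unfold cw
    ring
  rw [h3]
  have h4 := Finset.sum_le_sum fun u (_ : u ∈ (Finset.univ : Finset V)) => h1 u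
  have h5 := Finset.sum_le_sum fun w (_ : w ∈ (Finset.univ : Finset V)) => h2 w
  simp only [Finset.sum_sub_distrib, ← Finset.sum_div] at h4 h5
  have h6 : ∑ w, ∑ v, mt G v w = ∑ u, ∑ v, mt G u v := Finset.sum_comm
  rw [h6] at h5
  linarith

theorem card_pairs (P : V → V → Prop) :
    ((Finset.univ.filter (fun p : V × V => P p.1 p.2)).card : ℚ)
      = ∑ u, ∑ v, (if P u v then 1 else 0) := by
  rw [← Finset.sum_boole, ← Finset.univ_product_univ, Finset.sum_product]

end

/-- **Theorem.** For every finite oriented graph, four times the left side of the inequality of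
Thomasse is at least six times the number of arcs plus twice the number of vertices whose
out-degree exceeds the in-degree plus the number of vertices with an out-neighbour plus the number
of vertices with an in-neighbour. -/
theorem result (V : Type) [Fintype V] (G : Digraph V) (hirr : ∀ u, ¬ G.Adj u u)
    (hanti : ∀ u v, G.Adj u v → ¬ G.Adj v u) :
    4 * ((∑ v : V, |((Finset.univ.filter (fun w => G.Adj v w)).card : ℤ)
                  - ((Finset.univ.filter (fun w => G.Adj w v)).card : ℤ)|)
        + ((Finset.univ.filter (fun p : V × V =>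
              p.1 ≠ p.2 ∧ (G.Adj p.1 p.2 ∨ ∃ w, G.Adj p.1 w ∧ G.Adj w p.2))).card : ℤ))
      ≥ 6 * ((Finset.univ.filter (fun p : V × V => G.Adj p.1 p.2)).card : ℤ)
        + 2 * ((Finset.univ.filter (fun v =>
              (Finset.univ.filter (fun w => G.Adj w v)).card
                < (Finset.univ.filter (fun w => G.Adj v w)).card)).card : ℤ)
        + ((Finset.univ.filter (fun v => ∃ w, G.Adj v w)).card : ℤ)
        + ((Finset.univ.filter (fun v => ∃ w, G.Adj w v)).card : ℤ) := by
  have hE : ((Finset.univ.filter (fun p : V × V => G.Adj p.1 p.2)).card : ℚ)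
      = ∑ u, ∑ v, mt G u v := card_pairs fun u v => G.Adj u v
  have hS : 2 * ((Finset.univ.filter (fun v => (Finset.univ.filter (fun w => G.Adj w v)).card
                < (Finset.univ.filter (fun w => G.Adj v w)).card)).card : ℚ)
      = 4 * ∑ v, (if inDeg G v < outDeg G v then 1 / 2 else 0) := by
    have e : ∑ v, (if inDeg G v < outDeg G v then 1 / 2 else 0 : ℚ)
        = (∑ v, (if inDeg G v < outDeg G v then 1 else 0 : ℚ)) / 2 := by
      rw [Finset.sum_div]
      refine Finset.sum_congr rfl fun v _ => ?_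
      split_ifs <;> norm_num
    rw [e, Finset.sum_boole]
    unfold inDeg outDeg
    ring
  have hO : ((Finset.univ.filter (fun v => ∃ w, G.Adj v w)).card : ℚ)
      = ∑ v, (if 0 < outDeg G v then 1 else 0) := by
    rw [Finset.sum_boole]
    congr 2
    ext v
    simp only [Finset.mem_filter, Finset.mem_univ, true_and]
    unfold outDeg
    rw [Finset.card_pos]
    constructor
    · rintro ⟨w, hw⟩
      exact ⟨w, by simpa using hw⟩
    · rintro ⟨w, hw⟩
      exact ⟨w, by simpa using hw⟩
  have hI : ((Finset.univ.filter (fun v => ∃ w, G.Adj w v)).card : ℚ)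
      = ∑ v, (if 0 < inDeg G v then 1 else 0) := by
    rw [Finset.sum_boole]
    congr 2
    ext v
    simp only [Finset.mem_filter, Finset.mem_univ, true_and]
    unfold inDeg
    rw [Finset.card_pos]
    constructor
    · rintro ⟨w, hw⟩
      exact ⟨w, by simpa using hw⟩
    · rintro ⟨w, hw⟩
      exact ⟨w, by simpa using hw⟩
  have hP : ((Finset.univ.filter (fun p : V × V =>
      p.1 ≠ p.2 ∧ (G.Adj p.1 p.2 ∨ ∃ w, G.Adj p.1 w ∧ G.Adj w p.2))).card : ℚ)
      = ∑ u, ∑ v, mt G u v + ∑ u, ∑ w, two G u w := by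
    have h0 : ((Finset.univ.filter (fun p : V × V =>
        p.1 ≠ p.2 ∧ (G.Adj p.1 p.2 ∨ ∃ w, G.Adj p.1 w ∧ G.Adj w p.2))).card : ℚ)
        = ∑ u, ∑ v, (if u ≠ v ∧ (G.Adj u v ∨ ∃ w, G.Adj u w ∧ G.Adj w v) then 1 else 0) := by
      have h := card_pairs (fun u v : V => u ≠ v ∧ (G.Adj u v ∨ ∃ w, G.Adj u w ∧ G.Adj w v))
      convert h
    rw [h0, ← Finset.sum_add_distrib]
    refine Finset.sum_congr rfl fun u _ => ?_
    rw [← Finset.sum_add_distrib]
    refine Finset.sum_congr rfl fun v _ => ?_
    unfold mt two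
    by_cases h1 : G.Adj u v
    · have hne : u ≠ v := by
        rintro rfl
        exact hirr _ h1
      simp [h1, hne]
    · simp [h1]
  have hN : ∑ u, ∑ w, (∑ v, mt G u v * mt G v w) * (1 - mt G u w) * cw G u w
      ≤ ∑ u, ∑ w, two G u w :=
    Finset.sum_le_sum fun u _ => Finset.sum_le_sum fun w _ => path_sum_le G hanti u w
  have hT : ∑ u, ∑ w, (∑ v, mt G u v * mt G v w) * cw G u w
      = ∑ u, ∑ w, (∑ v, mt G u v * mt G v w) * (1 - mt G u w) * cw G u w
        + ∑ u, ∑ w, (∑ v, mt G u v * mt G v w) * mt G u w * cw G u w := by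
    rw [← Finset.sum_add_distrib]
    refine Finset.sum_congr rfl fun u _ => ?_
    rw [← Finset.sum_add_distrib]
    refine Finset.sum_congr rfl fun w _ => ?_
    ring
  have hW := weight_lower G
  have hR := triangle_weight G hanti hirr
  have hB : ∑ v, |(outDeg G v : ℚ) - inDeg G v|
      = ((∑ v : V, |((Finset.univ.filter (fun w => G.Adj v w)).card : ℤ)
                  - ((Finset.univ.filter (fun w => G.Adj w v)).card : ℤ)| : ℤ) : ℚ) := by
    push_cast
    rfl
  have key : 6 * ((Finset.univ.filter (fun p : V × V => G.Adj p.1 p.2)).card : ℚ)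
        + 2 * ((Finset.univ.filter (fun v =>
              (Finset.univ.filter (fun w => G.Adj w v)).card
                < (Finset.univ.filter (fun w => G.Adj v w)).card)).card : ℚ)
        + ((Finset.univ.filter (fun v => ∃ w, G.Adj v w)).card : ℚ)
        + ((Finset.univ.filter (fun v => ∃ w, G.Adj w v)).card : ℚ)
      ≤ 4 * (((∑ v : V, |((Finset.univ.filter (fun w => G.Adj v w)).card : ℤ)
                  - ((Finset.univ.filter (fun w => G.Adj w v)).card : ℤ)| : ℤ) : ℚ)
        + ((Finset.univ.filter (fun p : V × V =>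
              p.1 ≠ p.2 ∧ (G.Adj p.1 p.2 ∨ ∃ w, G.Adj p.1 w ∧ G.Adj w p.2))).card : ℚ)) := by
    rw [hE, hS, hO, hI, hP, ← hB]
    linarith
  exact_mod_cast key

end Pool.Agent.Results.MP_8665f8_co.ThreeQuarters
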