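import Mathlib
import Pool.Agent.Helper3.Thom.Arc

/-!
The degree-imbalance inequality of Thomasse for oriented graphs without transitive triangles, with
an explicit error term, a sum over the transitive triangles, for all oriented graphs.
-/

set_option autoImplicit false

open Classical

namespace Pool.Agent.Results.MP_8665f8_co.TransitiveTriangles

open Finset Pool.Agent.Helper3.Thom

variable {V : Type}

/-- The out-degree. -/
noncomputable def outDeg [Fintype V] (G : Digraph V) (v : V) : ℕ :=
  (Finset.univ.filter (fun w => G.Adj v w)).card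

/-- The in-degree. -/
noncomputable def inDeg [Fintype V] (G : Digraph V) (v : V) : ℕ :=
  (Finset.univ.filter (fun w => G.Adj w v)).card

/-- The transitive triangles: triples `(u, v, w)` with arcs `u → v`, `v → w` and `u → w`. -/
noncomputable def transTriangles [Fintype V] (G : Digraph V) : Finset (V × V × V) :=
  Finset.univ.filter (fun t : V × V × V => G.Adj t.1 t.2.1 ∧ G.Adj t.2.1 t.2.2 ∧ G.Adj t.1 t.2.2)

/-- The adjacency matrix. -/
noncomputable def mt (G : Digraph V) (u v : V) : ℚ := if G.Adj u v then 1 else 0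

theorem mt_nonneg (G : Digraph V) (u v : V) : 0 ≤ mt G u v := by
  unfold mt
  split_ifs <;> norm_num

theorem mt_le_one (G : Digraph V) (u v : V) : mt G u v ≤ 1 := by
  unfold mt
  split_ifs <;> norm_num

section

variable [Fintype V]

theorem outDeg_eq (G : Digraph V) (v : V) : (outDeg G v : ℚ) = ∑ w, mt G v w := by
  unfold outDeg mt
  rw [Finset.sum_boole]

theorem inDeg_eq (G : Digraph V) (v : V) : (inDeg G v : ℚ) = ∑ w, mt G w v := by
  unfold inDeg mt
  rw [Finset.sum_boole]

/-- The weight of the path `u → v → w`. -/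
noncomputable def cw (G : Digraph V) (u v w : V) : ℚ :=
  lam (outDeg G v) (inDeg G v) * (1 / outDeg G u)
    + (1 - lam (outDeg G v) (inDeg G v)) * (1 / inDeg G w)

theorem cw_le (G : Digraph V) (u v w : V) :
    cw G u v w ≤ max (1 / (outDeg G u : ℚ)) (1 / (inDeg G w : ℚ)) := by
  unfold cw
  have h0 := lam_nonneg (outDeg G v) (inDeg G v)
  have h1 := lam_le_one (outDeg G v) (inDeg G v)
  have h2 := le_max_left (1 / (outDeg G u : ℚ)) (1 / (inDeg G w : ℚ))
  have h3 := le_max_right (1 / (outDeg G u : ℚ)) (1 / (inDeg G w : ℚ))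
  nlinarith

/-- Indicator of the pairs at distance exactly two. -/
noncomputable def two (G : Digraph V) (u w : V) : ℚ :=
  if u ≠ w ∧ ¬ G.Adj u w ∧ ∃ v, G.Adj u v ∧ G.Adj v w then 1 else 0

theorem two_nonneg (G : Digraph V) (u w : V) : 0 ≤ two G u w := by
  unfold two
  split_ifs <;> norm_num

/-- The weights of the paths from `u` to `w` add up to at most one. -/
theorem path_sum_le (G : Digraph V) (hanti : ∀ u v, G.Adj u v → ¬ G.Adj v u) (u w : V) :
    ∑ v, mt G u v * mt G v w * (1 - mt G u w) * cw G u v w ≤ two G u w := by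
  by_cases hadj : G.Adj u w
  · have h0 : mt G u w = 1 := by
      unfold mt
      rw [if_pos hadj]
    have : ∑ v, mt G u v * mt G v w * (1 - mt G u w) * cw G u v w = 0 := by
      refine Finset.sum_eq_zero fun v _ => ?_
      rw [h0]
      ring
    rw [this]
    exact two_nonneg G u w
  · have h0 : mt G u w = 0 := by
      unfold mt
      rw [if_neg hadj]
    by_cases hex : ∃ v, G.Adj u v ∧ G.Adj v w
    · have hne : u ≠ w := by
        rintro rfl
        obtain ⟨v, h1, h2⟩ := hex
        exact hanti _ _ h1 h2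
      have h1 : two G u w = 1 := by
        unfold two
        rw [if_pos ⟨hne, hadj, hex⟩]
      rw [h1]
      obtain ⟨v0, hv1, hv2⟩ := hex
      have hp : (0 : ℚ) < outDeg G u := by
        have : 0 < outDeg G u := Finset.card_pos.2 ⟨v0, by simpa using hv1⟩
        exact_mod_cast this
      have hq : (0 : ℚ) < inDeg G w := by
        have : 0 < inDeg G w := Finset.card_pos.2 ⟨v0, by simpa using hv2⟩
        exact_mod_cast this
      set M := max (1 / (outDeg G u : ℚ)) (1 / (inDeg G w : ℚ)) with hM
      have h2 : ∑ v, mt G u v * mt G v w * (1 - mt G u w) * cw G u v w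
          ≤ ∑ v, mt G u v * mt G v w * M := by
        refine Finset.sum_le_sum fun v _ => ?_
        rw [h0]
        have h3 := cw_le G u v w
        have h4 := mul_nonneg (mt_nonneg G u v) (mt_nonneg G v w)
        nlinarith
      refine h2.trans ?_
      rw [← Finset.sum_mul]
      have h5 : ∑ v, mt G u v * mt G v w ≤ outDeg G u := by
        rw [outDeg_eq]
        refine Finset.sum_le_sum fun v _ => ?_
        have h3 := mt_nonneg G u v
        have h4 := mt_le_one G v w
        nlinarith
      have h6 : ∑ v, mt G u v * mt G v w ≤ inDeg G w := by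
        rw [inDeg_eq]
        refine Finset.sum_le_sum fun v _ => ?_
        have h3 := mt_nonneg G v w
        have h4 := mt_le_one G u v
        nlinarith
      rcases max_choice (1 / (outDeg G u : ℚ)) (1 / (inDeg G w : ℚ)) with h7 | h7
      · rw [hM, h7, mul_one_div, div_le_one hp]
        exact h5
      · rw [hM, h7, mul_one_div, div_le_one hq]
        exact h6
    · have : ∑ v, mt G u v * mt G v w * (1 - mt G u w) * cw G u v w = 0 := by
        refine Finset.sum_eq_zero fun v _ => ?_
        have h1 : mt G u v * mt G v w = 0 := by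
          unfold mt
          by_cases h2 : G.Adj u v
          · have h3 : ¬ G.Adj v w := fun h => hex ⟨v, h2, h⟩
            rw [if_neg h3, mul_zero]
          · rw [if_neg h2, zero_mul]
        rw [h1]
        ring
      rw [this]
      exact two_nonneg G u w

/-- The total weight of the paths of length two. -/
theorem total_weight (G : Digraph V) :
    ∑ u, ∑ v, ∑ w, mt G u v * mt G v w * cw G u v w
      = ∑ u, ∑ v, mt G u v *
        (lam (outDeg G v) (inDeg G v) * ((outDeg G v : ℚ) / outDeg G u)
          + (1 - lam (outDeg G u) (inDeg G u)) * ((inDeg G u : ℚ) / inDeg G v)) := by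
  have h1 : ∀ u v w, mt G u v * mt G v w * cw G u v w
      = mt G u v * (lam (outDeg G v) (inDeg G v) * (1 / outDeg G u)) * mt G v w
        + mt G u v * (mt G v w * ((1 - lam (outDeg G v) (inDeg G v)) * (1 / inDeg G w))) := by
    intro u v w
    unfold cw
    ring
  simp only [h1, Finset.sum_add_distrib]
  have h2 : ∑ u, ∑ v, ∑ w, mt G u v * (lam (outDeg G v) (inDeg G v) * (1 / outDeg G u)) * mt G v w
      = ∑ u, ∑ v, mt G u v *
        (lam (outDeg G v) (inDeg G v) * ((outDeg G v : ℚ) / outDeg G u)) := by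
    refine Finset.sum_congr rfl fun u _ => Finset.sum_congr rfl fun v _ => ?_
    rw [← Finset.mul_sum, ← outDeg_eq]
    ring
  have h3 : ∑ u, ∑ v, ∑ w, mt G u v *
      (mt G v w * ((1 - lam (outDeg G v) (inDeg G v)) * (1 / inDeg G w)))
      = ∑ u, ∑ v, mt G u v *
        ((1 - lam (outDeg G u) (inDeg G u)) * ((inDeg G u : ℚ) / inDeg G v)) := by
    rw [Finset.sum_comm]
    refine Finset.sum_congr rfl fun v _ => ?_
    rw [Finset.sum_comm]
    refine Finset.sum_congr rfl fun w _ => ?_
    rw [← Finset.sum_mul, ← inDeg_eq]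
    ring
  rw [h2, h3, ← Finset.sum_add_distrib]
  refine Finset.sum_congr rfl fun u _ => ?_
  rw [← Finset.sum_add_distrib]
  refine Finset.sum_congr rfl fun v _ => ?_
  ring

theorem vertex_identity (p q : ℕ) :
    (p : ℚ) * Af p q + q * Bf p q = p + q - |(p : ℚ) - q| + (if q < p then 1 else 0) := by
  unfold Af Bf
  rcases lt_trichotomy q p with h | h | h
  · have hp : (p : ℚ) ≠ 0 := by
      have : p ≠ 0 := by omega
      exact_mod_cast this
    have h1 : (0 : ℚ) ≤ (p : ℚ) - q := by
      have : (q : ℚ) ≤ p := by exact_mod_cast h.le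
      linarith
    rw [if_pos h, if_neg (by omega), if_pos h, abs_of_nonneg h1, mul_div_cancel₀ _ hp]
    ring
  · subst h
    simp
  · have hq : (q : ℚ) ≠ 0 := by
      have : q ≠ 0 := by omega
      exact_mod_cast this
    have h1 : (p : ℚ) - q ≤ 0 := by
      have : (p : ℚ) ≤ q := by exact_mod_cast h.le
      linarith
    rw [if_neg (by omega), if_pos h, if_neg (by omega), abs_of_nonpos h1, mul_div_cancel₀ _ hq]
    ring

/-- Lower bound for the total weight. -/
theorem weight_lower (G : Digraph V) :
    ∑ u, ∑ v, mt G u v - ∑ v, |(outDeg G v : ℚ) - inDeg G v|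
      + ∑ v, (if inDeg G v < outDeg G v then 1 else 0)
      ≤ ∑ u, ∑ v, ∑ w, mt G u v * mt G v w * cw G u v w := by
  rw [total_weight]
  have h1 : ∑ u, ∑ v, mt G u v * (Af (outDeg G u) (inDeg G u) + Bf (outDeg G v) (inDeg G v) - 1)
      ≤ ∑ u, ∑ v, mt G u v *
        (lam (outDeg G v) (inDeg G v) * ((outDeg G v : ℚ) / outDeg G u)
          + (1 - lam (outDeg G u) (inDeg G u)) * ((inDeg G u : ℚ) / inDeg G v)) := by
    refine Finset.sum_le_sum fun u _ => Finset.sum_le_sum fun v _ => ?_
    by_cases h : G.Adj u v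
    · refine mul_le_mul_of_nonneg_left ?_ (mt_nonneg G u v)
      refine arc_ineq _ _ _ _ ?_ ?_
      · exact Finset.card_pos.2 ⟨v, by simpa using h⟩
      · exact Finset.card_pos.2 ⟨u, by simpa using h⟩
    · have h0 : mt G u v = 0 := by
        unfold mt
        rw [if_neg h]
      rw [h0, zero_mul, zero_mul]
  refine le_trans (le_of_eq ?_) h1
  have h2 : ∑ u, ∑ v, mt G u v * (Af (outDeg G u) (inDeg G u) + Bf (outDeg G v) (inDeg G v) - 1)
      = ∑ u, (outDeg G u : ℚ) * Af (outDeg G u) (inDeg G u)
        + ∑ v, (inDeg G v : ℚ) * Bf (outDeg G v) (inDeg G v) - ∑ u, ∑ v, mt G u v := by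
    have e1 : ∀ u v, mt G u v * (Af (outDeg G u) (inDeg G u) + Bf (outDeg G v) (inDeg G v) - 1)
        = mt G u v * Af (outDeg G u) (inDeg G u) + mt G u v * Bf (outDeg G v) (inDeg G v)
          - mt G u v := by
      intro u v
      ring
    simp only [e1, Finset.sum_add_distrib, Finset.sum_sub_distrib]
    congr 1
    congr 1
    · refine Finset.sum_congr rfl fun u _ => ?_
      rw [outDeg_eq, Finset.sum_mul]
    · rw [Finset.sum_comm]
      refine Finset.sum_congr rfl fun v _ => ?_
      rw [inDeg_eq, Finset.sum_mul]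
  rw [h2, ← Finset.sum_add_distrib]
  have h3 : ∀ v, (outDeg G v : ℚ) * Af (outDeg G v) (inDeg G v)
      + (inDeg G v : ℚ) * Bf (outDeg G v) (inDeg G v)
      = outDeg G v + inDeg G v - |(outDeg G v : ℚ) - inDeg G v|
        + (if inDeg G v < outDeg G v then 1 else 0) := fun v => vertex_identity _ _
  simp only [h3, Finset.sum_add_distrib, Finset.sum_sub_distrib]
  have h4 : ∑ v, (outDeg G v : ℚ) = ∑ u, ∑ v, mt G u v :=
    Finset.sum_congr rfl fun u _ => outDeg_eq G u
  have h5 : ∑ v, (inDeg G v : ℚ) = ∑ u, ∑ v, mt G u v := by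
    rw [Finset.sum_comm]
    exact Finset.sum_congr rfl fun u _ => inDeg_eq G u
  rw [h4, h5]
  ring

theorem card_pairs (P : V → V → Prop) :
    ((Finset.univ.filter (fun p : V × V => P p.1 p.2)).card : ℚ)
      = ∑ u, ∑ v, (if P u v then 1 else 0) := by
  rw [← Finset.sum_boole, ← Finset.univ_product_univ, Finset.sum_product]

theorem error_eq (G : Digraph V) :
    ∑ t ∈ transTriangles G, max (1 / (outDeg G t.1 : ℚ)) (1 / (inDeg G t.2.2 : ℚ))
      = ∑ u, ∑ v, ∑ w, mt G u v * mt G v w * mt G u w *
        max (1 / (outDeg G u : ℚ)) (1 / (inDeg G w : ℚ)) := by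
  unfold transTriangles
  rw [Finset.sum_filter, ← Finset.univ_product_univ, Finset.sum_product]
  refine Finset.sum_congr rfl fun u _ => ?_
  rw [← Finset.univ_product_univ, Finset.sum_product]
  refine Finset.sum_congr rfl fun v _ => Finset.sum_congr rfl fun w _ => ?_
  simp only
  unfold mt
  by_cases h1 : G.Adj u v <;> by_cases h2 : G.Adj v w <;> by_cases h3 : G.Adj u w <;>
    simp [h1, h2, h3]

end

/-- **Theorem.** For every finite oriented graph the inequality of Thomasse holds up to the sum,
over the transitive triangles `u → v → w`, `u → w`, of `max (1 / outdeg u) (1 / indeg w)`; in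
particular it holds if there are no transitive triangles. -/
theorem result (V : Type) [Fintype V] (G : Digraph V) (hirr : ∀ u, ¬ G.Adj u u)
    (hanti : ∀ u v, G.Adj u v → ¬ G.Adj v u) :
    2 * ((Finset.univ.filter (fun p : V × V => G.Adj p.1 p.2)).card : ℚ)
        + ((Finset.univ.filter (fun v => inDeg G v < outDeg G v)).card : ℚ)
      ≤ (∑ v : V, |(outDeg G v : ℚ) - (inDeg G v : ℚ)|)
        + ((Finset.univ.filter (fun p : V × V =>
              p.1 ≠ p.2 ∧ (G.Adj p.1 p.2 ∨ ∃ w, G.Adj p.1 w ∧ G.Adj w p.2))).card : ℚ)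
        + ∑ t ∈ transTriangles G, max (1 / (outDeg G t.1 : ℚ)) (1 / (inDeg G t.2.2 : ℚ)) := by
  have hE : ((Finset.univ.filter (fun p : V × V => G.Adj p.1 p.2)).card : ℚ)
      = ∑ u, ∑ v, mt G u v := card_pairs fun u v => G.Adj u v
  have hS : ((Finset.univ.filter (fun v => inDeg G v < outDeg G v)).card : ℚ)
      = ∑ v, (if inDeg G v < outDeg G v then 1 else 0) := (Finset.sum_boole _ _).symm
  have hP : ((Finset.univ.filter (fun p : V × V =>
      p.1 ≠ p.2 ∧ (G.Adj p.1 p.2 ∨ ∃ w, G.Adj p.1 w ∧ G.Adj w p.2))).card : ℚ)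
      = ∑ u, ∑ v, mt G u v + ∑ u, ∑ w, two G u w := by
    have h0 : ((Finset.univ.filter (fun p : V × V =>
        p.1 ≠ p.2 ∧ (G.Adj p.1 p.2 ∨ ∃ w, G.Adj p.1 w ∧ G.Adj w p.2))).card : ℚ)
        = ∑ u, ∑ v, (if u ≠ v ∧ (G.Adj u v ∨ ∃ w, G.Adj u w ∧ G.Adj w v) then 1 else 0) := by
      have h := card_pairs (fun u v : V => u ≠ v ∧ (G.Adj u v ∨ ∃ w, G.Adj u w ∧ G.Adj w v))
      convert h
    rw [h0, ← Finset.sum_add_distrib]
    refine Finset.sum_congr rfl fun u _ => ?_
    rw [← Finset.sum_add_distrib]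
    refine Finset.sum_congr rfl fun v _ => ?_
    unfold mt two
    by_cases h1 : G.Adj u v
    · have hne : u ≠ v := by
        rintro rfl
        exact hirr _ h1
      simp [h1, hne]
    · simp [h1]
  have hN : ∑ u, ∑ v, ∑ w, mt G u v * mt G v w * (1 - mt G u w) * cw G u v w
      ≤ ∑ u, ∑ w, two G u w := by
    refine Finset.sum_le_sum fun u _ => ?_
    rw [Finset.sum_comm]
    exact Finset.sum_le_sum fun w _ => path_sum_le G hanti u w
  have hT : ∑ u, ∑ v, ∑ w, mt G u v * mt G v w * cw G u v w
      ≤ ∑ u, ∑ v, ∑ w, mt G u v * mt G v w * (1 - mt G u w) * cw G u v w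
        + ∑ u, ∑ v, ∑ w, mt G u v * mt G v w * mt G u w *
          max (1 / (outDeg G u : ℚ)) (1 / (inDeg G w : ℚ)) := by
    rw [← Finset.sum_add_distrib]
    refine Finset.sum_le_sum fun u _ => ?_
    rw [← Finset.sum_add_distrib]
    refine Finset.sum_le_sum fun v _ => ?_
    rw [← Finset.sum_add_distrib]
    refine Finset.sum_le_sum fun w _ => ?_
    have h1 := mul_le_mul_of_nonneg_left (cw_le G u v w)
      (mul_nonneg (mul_nonneg (mt_nonneg G u v) (mt_nonneg G v w)) (mt_nonneg G u w))
    nlinarith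
  have hW := weight_lower G
  rw [hE, hS, hP, error_eq]
  linarith

end Pool.Agent.Results.MP_8665f8_co.TransitiveTriangles
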